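import Pool.Agent.H320R2.L5.Rate5
import Pool.Agent.H422R2.QA.QALD

/-! The lower half of the conjecture on the extremal total stopping times of the `5x+1` map. -/

set_option autoImplicit false

namespace Pool.Agent.H320R2.L5

open Finset Filter Pool.Agent.H422R2.QA Pool.Agent.H422R2.QA.App

/-- integers `2 ≤ n ≤ X` whose total stopping time `k` is finite with `|k/log n - lam| ≤ ε` -/
def SetLD (lam ε X : ℝ) : Set ℕ :=
  {n : ℕ | 2 ≤ n ∧ (n : ℝ) ≤ X ∧ ∃ k : ℕ, IsLeast {j : ℕ | (TN 5)^[j] n = 1} k ∧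
    |(k : ℝ) / Real.log n - lam| ≤ ε}

theorem SetLD_finite (lam ε X : ℝ) : (SetLD lam ε X).Finite := by
  apply (Set.finite_Iic ⌊X⌋₊).subset
  rintro n ⟨_, h, _⟩
  exact Nat.le_floor h

/-- from a mean letter `a` to the time constant -/
theorem count_a {a : ℝ} (ha : 1 < a) (hG : 0 < Ga 5 a) (hD : Real.log 5 < a * Real.log 2)
    {ε : ℝ} (hε : 0 < ε) : ∃ X₀ : ℝ, ∀ X : ℝ, X₀ ≤ X →
      X ^ (Ga 5 a / (a * Real.log 2 - Real.log 5) - ε) ≤
        ((SetLD (a / (a * Real.log 2 - Real.log 5)) ε X).ncard : ℝ) := by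
  have hDpos : 0 < a * Real.log 2 - Real.log 5 := by linarith
  set e : ℝ := Ga 5 a / (a * Real.log 2 - Real.log 5) with he
  have he0 : 0 < e := div_pos hG hDpos
  set δ : ℝ := min (ε / 2) (e / 2) with hδ
  have hδ0 : 0 < δ := lt_min (by positivity) (by positivity)
  obtain ⟨X₀, hX₀⟩ := App.LDZ (q := 5) (Or.inr rfl) (r := 1) (by norm_num) ha hG
    (by exact_mod_cast hD) hδ0
  have hexp : 0 < e - δ := by
    have := min_le_right (ε / 2) (e / 2)
    linarith
  have hexp2 : 0 < ε - δ := by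
    have := min_le_left (ε / 2) (e / 2)
    linarith
  -- for large `X` one more element does not matter
  have ht := tendsto_rpow_atTop hexp2
  have ht2 := tendsto_rpow_atTop hexp
  obtain ⟨X₁, hX₁⟩ := (ht.eventually_ge_atTop 2).exists_forall_of_atTop
  obtain ⟨X₂, hX₂⟩ := (ht2.eventually_ge_atTop 2).exists_forall_of_atTop
  refine ⟨max (max X₀ 1) (max X₁ X₂), fun X hX => ?_⟩
  have hXa : X₀ ≤ X := le_trans (le_trans (le_max_left _ _) (le_max_left _ _)) hX
  have hXb : 1 ≤ X := le_trans (le_trans (le_max_right _ _) (le_max_left _ _)) hX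
  have hXc : X₁ ≤ X := le_trans (le_trans (le_max_left _ _) (le_max_right _ _)) hX
  have hXd : X₂ ≤ X := le_trans (le_trans (le_max_right _ _) (le_max_right _ _)) hX
  have hX0 : 0 < X := by linarith
  have h1 := hX₀ X hXa
  -- the integers are natural numbers
  set S : Set ℤ := {m : ℤ | |(m : ℝ)| ≤ X ∧ 0 < m * 1 ∧ ¬ ((5 : ℕ) : ℤ) ∣ m ∧ ∃ k : ℕ,
    (TZ 5)^[k] m = 1 ∧ (∀ j < k, (TZ 5)^[j] m ≠ 1) ∧
    |(k : ℝ) - a / (a * Real.log 2 - Real.log (5 : ℕ)) * Real.log (|(m : ℝ)|)| ≤
      δ * Real.log (|(m : ℝ)|)} with hS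
  have hsub : S ⊆ (fun n : ℕ => (n : ℤ)) '' (insert 1 (SetLD (a / (a * Real.log 2 - Real.log 5)) ε X)) := by
    rintro m ⟨hm1, hm2, -, k, hk1, hk2, hk3⟩
    rw [mul_one] at hm2
    obtain ⟨n, rfl⟩ := Int.eq_ofNat_of_zero_le hm2.le
    have hn0 : 0 < n := by exact_mod_cast hm2
    have habs : |((n : ℤ) : ℝ)| = (n : ℝ) := by
      rw [Int.cast_natCast, abs_of_nonneg (Nat.cast_nonneg n)]
    rw [habs] at hm1 hk3
    refine ⟨n, ?_, rfl⟩
    rcases Nat.lt_or_ge 1 n with h | h
    · right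
      have hlog : 0 < Real.log n := Real.log_pos (by exact_mod_cast h)
      refine ⟨h, hm1, k, ⟨?_, ?_⟩, ?_⟩
      · have := App.TZ_iter_cast 5 n k
        rw [hk1] at this
        exact_mod_cast this.symm
      · intro j hj
        by_contra hcon
        push Not at hcon
        apply hk2 j hcon
        have := App.TZ_iter_cast 5 n j
        rw [show (TN 5)^[j] n = 1 from hj] at this
        exact_mod_cast this
      · have e1 : (k : ℝ) / Real.log n - a / (a * Real.log 2 - Real.log 5) =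
            ((k : ℝ) - a / (a * Real.log 2 - Real.log 5) * Real.log n) / Real.log n := by
          field_simp
        rw [e1, abs_div, abs_of_pos hlog, div_le_iff₀ hlog]
        have h2 : δ * Real.log n ≤ ε * Real.log n := by
          apply mul_le_mul_of_nonneg_right _ hlog.le
          linarith
        refine le_trans ?_ h2
        exact_mod_cast hk3
    · left
      omega
  have hfin : (insert 1 (SetLD (a / (a * Real.log 2 - Real.log 5)) ε X)).Finite :=
    (SetLD_finite _ _ _).insert 1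
  have h2 : S.ncard ≤ (SetLD (a / (a * Real.log 2 - Real.log 5)) ε X).ncard + 1 := by
    calc S.ncard ≤ ((fun n : ℕ => (n : ℤ)) ''
          (insert 1 (SetLD (a / (a * Real.log 2 - Real.log 5)) ε X))).ncard :=
          Set.ncard_le_ncard hsub (hfin.image _)
      _ ≤ (insert 1 (SetLD (a / (a * Real.log 2 - Real.log 5)) ε X)).ncard :=
          Set.ncard_image_le hfin
      _ ≤ (SetLD (a / (a * Real.log 2 - Real.log 5)) ε X).ncard + 1 := Set.ncard_insert_le _ _
  have h3 : X ^ (e - δ) ≤ ((SetLD (a / (a * Real.log 2 - Real.log 5)) ε X).ncard : ℝ) + 1 := by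
    refine le_trans ?_ (by exact_mod_cast h2 : (S.ncard : ℝ) ≤
      ((SetLD (a / (a * Real.log 2 - Real.log 5)) ε X).ncard : ℝ) + 1)
    exact_mod_cast h1
  have h4 := hX₁ X hXc
  have h5 := hX₂ X hXd
  have h6 : X ^ (e - δ) = X ^ (e - ε) * X ^ (ε - δ) := by
    rw [← Real.rpow_add hX0]
    congr 1
    ring
  have h7 : 0 < X ^ (e - ε) := Real.rpow_pos_of_pos hX0 _
  have h8 : X ^ (e - ε) * 2 ≤ X ^ (e - δ) := by
    rw [h6]
    exact mul_le_mul_of_nonneg_left h4 h7.le
  linarith

/-- the odd frequency attached to the time constant `lam` -/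
noncomputable def rr (lam : ℝ) : ℝ := (Real.log 2 - 1 / lam) / Real.log 5

theorem rr_pos {lam : ℝ} (h : 1 / Real.log 2 < lam) : 0 < rr lam := by
  have hl5 : 0 < Real.log 5 := Real.log_pos (by norm_num)
  have hl2 : 0 < Real.log 2 := Real.log_pos (by norm_num)
  have hα : 0 < lam := lt_trans (by positivity) h
  unfold rr
  apply div_pos _ hl5
  have : 1 / lam < Real.log 2 := by
    rw [div_lt_iff₀ hα]
    rw [div_lt_iff₀ hl2] at h
    linarith
  linarith

theorem rr_lt_one {lam : ℝ} (h : 0 < lam) : rr lam < 1 := by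
  have hl5 : 0 < Real.log 5 := Real.log_pos (by norm_num)
  have h25 : Real.log 2 < Real.log 5 := Real.log_lt_log (by norm_num) (by norm_num)
  unfold rr
  rw [div_lt_one hl5]
  have : 0 < 1 / lam := by positivity
  linarith

theorem rr_spec (lam : ℝ) : 1 / lam = Real.log 2 - rr lam * Real.log 5 := by
  have hl5 : 0 < Real.log 5 := Real.log_pos (by norm_num)
  unfold rr
  field_simp
  ring

/-- counts with prescribed time constant -/
theorem count_lam {lam : ℝ} (h : 1 / Real.log 2 < lam) (hF : 0 < FF (rr lam)) {ε : ℝ}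
    (hε : 0 < ε) : ∃ X₀ : ℝ, ∀ X : ℝ, X₀ ≤ X →
      X ^ (lam * FF (rr lam) - ε) ≤ ((SetLD lam ε X).ncard : ℝ) := by
  have hl5 : 0 < Real.log 5 := Real.log_pos (by norm_num)
  have hl2 : 0 < Real.log 2 := Real.log_pos (by norm_num)
  have hlam : 0 < lam := lt_trans (by positivity) h
  have hr0 := rr_pos h
  have hr1 := rr_lt_one hlam
  have hs := rr_spec lam
  set r := rr lam with hr
  have ha : 1 < 1 / r := by
    rw [lt_div_iff₀ hr0]
    linarith
  have h1r : 0 < 1 - r := by linarith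
  have hG : Ga 5 (1 / r) = FF r / r := by
    unfold Ga FF Real.binEntropy
    have e1 : 1 / r - 1 = (1 - r) / r := by field_simp
    rw [e1, Real.log_div one_ne_zero hr0.ne', Real.log_div h1r.ne' hr0.ne', Real.log_one,
      Real.log_inv, Real.log_inv]
    push_cast
    field_simp
    ring
  have hD : 1 / r * Real.log 2 - Real.log 5 = 1 / (lam * r) := by
    have e2 : 1 / (lam * r) = (1 / lam) / r := by
      field_simp
    rw [e2, hs]
    field_simp
  have hDpos : 0 < 1 / r * Real.log 2 - Real.log 5 := by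
    rw [hD]; positivity
  have h1 := count_a ha (by rw [hG]; exact div_pos hF hr0) (by linarith) hε
  rw [hG, hD] at h1
  have e3 : FF r / r / (1 / (lam * r)) = lam * FF r := by
    field_simp
  have e4 : 1 / r / (1 / (lam * r)) = lam := by
    field_simp
  rw [e3, e4] at h1
  exact h1

theorem main5 : ∃ r₀ γ : ℝ, (0 < r₀ ∧ r₀ < 1 ∧
      -r₀ * Real.log r₀ - (1 - r₀) * Real.log (1 - r₀) = r₀ * Real.log 5) ∧
    (∀ r : ℝ, 0 < r → r < 1 → -r * Real.log r - (1 - r) * Real.log (1 - r) = r * Real.log 5 →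
      r = r₀) ∧
    γ = 1 / (Real.log 2 - r₀ * Real.log 5) ∧ 84.7589 < γ ∧ γ < 84.7592 ∧
    (∀ lam : ℝ, 1 / Real.log 2 < lam → lam < γ → 0 < FF (rr lam) ∧
      ∀ ε : ℝ, 0 < ε → ∃ X₀ : ℝ, ∀ X : ℝ, X₀ ≤ X →
        X ^ (lam * FF (rr lam) - ε) ≤ ((SetLD lam ε X).ncard : ℝ)) ∧
    (∀ ε : ℝ, 0 < ε → {x : ℕ | 2 ≤ x ∧ ∃ k : ℕ, IsLeast {j : ℕ | (TN 5)^[j] x = 1} k ∧
      (γ - ε) * Real.log (x : ℝ) < (k : ℝ)}.Infinite) := by
  have hl5 : 0 < Real.log 5 := Real.log_pos (by norm_num)
  have hl2 : 0 < Real.log 2 := Real.log_pos (by norm_num)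
  obtain ⟨r₀, h0, h1, hF, hD, hg1, hg2⟩ := exists_gamma
  set γ : ℝ := 1 / (Real.log 2 - r₀ * Real.log 5) with hγ
  have hγ0 : 0 < γ := by positivity
  have hl2' := Real.log_two_gt_d9
  have hγ1 : 1 / Real.log 2 < γ := by
    have : 1 / Real.log 2 < 2 := by
      rw [div_lt_iff₀ hl2]
      norm_num at *
      linarith
    norm_num at hg1
    linarith
  have hinv : 1 / γ = Real.log 2 - r₀ * Real.log 5 := by
    rw [hγ, one_div_one_div]
  have hrγ : rr γ = r₀ := by
    unfold rr
    rw [hinv]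
    field_simp
    ring
  have hpos : ∀ lam : ℝ, 1 / Real.log 2 < lam → lam < γ → 0 < FF (rr lam) := by
    intro lam hl1 hl2'
    have hlam : 0 < lam := lt_trans (by positivity) hl1
    have h2 : rr lam < r₀ := by
      rw [← hrγ]
      unfold rr
      apply div_lt_div_of_pos_right _ hl5
      have : 1 / γ < 1 / lam := one_div_lt_one_div_of_lt hlam hl2'
      linarith
    exact FF_pos_of (rr_pos hl1) h2 h1.le hF.ge
  refine ⟨r₀, γ, ⟨h0, h1, ?_⟩, ?_, hγ, hg1, hg2, ?_, ?_⟩
  · have := FF_eq r₀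
    rw [hF] at this
    linarith
  · intro r hr0 hr1 hr
    apply FF_root_unique hr0 h0 hr1.le h1.le _ hF
    rw [FF_eq]
    linarith
  · exact fun lam hl1 hl2' => ⟨hpos lam hl1 hl2', fun ε hε => count_lam hl1 (hpos lam hl1 hl2') hε⟩
  · intro ε hε
    rw [Set.infinite_iff_exists_gt]
    intro N
    set lam : ℝ := max (γ - ε / 3) ((1 / Real.log 2 + γ) / 2) with hlamdef
    have hlam1 : 1 / Real.log 2 < lam := lt_of_lt_of_le (by linarith) (le_max_right _ _)
    have hlam2 : lam < γ := max_lt (by linarith) (by linarith)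
    have hlam0 : 0 < lam := lt_trans (by positivity) hlam1
    have hFl := hpos lam hlam1 hlam2
    set e : ℝ := lam * FF (rr lam) with he
    have he0 : 0 < e := mul_pos hlam0 hFl
    set δ : ℝ := min (ε / 3) (e / 2) with hδ
    have hδ0 : 0 < δ := lt_min (by positivity) (by positivity)
    obtain ⟨X₀, hX₀⟩ := count_lam hlam1 hFl hδ0
    have hexp : 0 < e - δ := by
      have := min_le_right (ε / 3) (e / 2)
      linarith
    obtain ⟨X, hX1, hX2⟩ := (((tendsto_rpow_atTop hexp).eventually_gt_atTop ((N : ℝ) + 1)).and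
      (eventually_ge_atTop X₀)).exists
    have h2 := hX₀ X hX2
    have h3 : (N : ℝ) + 1 < ((SetLD lam δ X).ncard : ℝ) := lt_of_lt_of_le hX1 h2
    have h4 : N + 1 < (SetLD lam δ X).ncard := by exact_mod_cast h3
    have h5 : ∃ m ∈ SetLD lam δ X, N < m := by
      by_contra hcon
      push Not at hcon
      have hsub : SetLD lam δ X ⊆ ((Finset.range (N + 1) : Finset ℕ) : Set ℕ) := by
        intro m hm
        rw [Finset.mem_coe, Finset.mem_range]
        exact Nat.lt_succ_of_le (hcon m hm)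
      have := Set.ncard_le_ncard hsub (Finset.finite_toSet _)
      rw [Set.ncard_coe_finset, Finset.card_range] at this
      omega
    obtain ⟨m, ⟨hm2, _, k, hk1, hk2⟩, hmN⟩ := h5
    refine ⟨m, ⟨hm2, k, hk1, ?_⟩, hmN⟩
    have hlog : 0 < Real.log m := Real.log_pos (by exact_mod_cast hm2)
    have h6 := (abs_le.1 hk2).1
    have h7 : γ - ε < (k : ℝ) / Real.log m := by
      have h8 := le_max_left (γ - ε / 3) ((1 / Real.log 2 + γ) / 2)
      have h9 := min_le_left (ε / 3) (e / 2)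
      have : -δ ≤ (k : ℝ) / Real.log m - lam := h6
      linarith
    rwa [lt_div_iff₀ hlog] at h7

end Pool.Agent.H320R2.L5
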