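import Mathlib

/-!
The extremal constant of the `5x+1` map (branching random walk prediction): existence,
uniqueness, numerical value. Adapted from `H395R2.G3.Rate` (helper395, `3x+1`).
-/

set_option autoImplicit false

namespace Pool.Agent.H320R2.L5

open Real

/-- the function whose root is the critical odd frequency -/
noncomputable def FF (r : ℝ) : ℝ := Real.binEntropy r - r * Real.log 5

theorem FF_cont : Continuous FF := by
  unfold FF
  fun_prop

theorem FF_eq (r : ℝ) : FF r = (-r * Real.log r - (1 - r) * Real.log (1 - r)) - r * Real.log 5 := by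
  unfold FF Real.binEntropy
  rw [Real.log_inv, Real.log_inv]
  ring

/-- strict concavity -/
theorem FF_pos_of {r r' : ℝ} (h0 : 0 < r) (h1 : r < r') (h2 : r' ≤ 1) (h : 0 ≤ FF r') : 0 < FF r := by
  have hr' : 0 < r' := h0.trans h1
  have ht0 : 0 < r / r' := div_pos h0 hr'
  have ht1 : r / r' < 1 := (div_lt_one hr').2 h1
  have hc := Real.strictConcave_binEntropy.2 (show (0 : ℝ) ∈ Set.Icc (0 : ℝ) 1 by simp)
    (show r' ∈ Set.Icc (0 : ℝ) 1 from ⟨hr'.le, h2⟩) hr'.ne
    (show 0 < 1 - r / r' by linarith) ht0 (by ring)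
  simp only [smul_eq_mul, mul_zero, zero_add, Real.binEntropy_zero] at hc
  have e1 : r / r' * r' = r := by field_simp
  rw [e1] at hc
  unfold FF at h ⊢
  have h3 : r / r' * (Real.binEntropy r' - r' * Real.log 5) ≥ 0 := by positivity
  have h4 : r / r' * (r' * Real.log 5) = r * Real.log 5 := by
    rw [← mul_assoc, e1]
  nlinarith

theorem FF_rational (p q : ℕ) (hp : 0 < p) (hq : p < q) :
    (q : ℝ) * FF ((p : ℝ) / q) = Real.log (((q ^ q : ℕ) : ℝ)) -
      Real.log (((p ^ p * (q - p) ^ (q - p) * 5 ^ p : ℕ) : ℝ)) := by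
  have hp0 : (0 : ℝ) < p := by exact_mod_cast hp
  have hq0 : (0 : ℝ) < q := by exact_mod_cast (hp.trans hq)
  have hqp : (0 : ℝ) < (q : ℝ) - p := by
    have : (p : ℝ) < q := by exact_mod_cast hq
    linarith
  have hcast : ((q - p : ℕ) : ℝ) = (q : ℝ) - p := by
    rw [Nat.cast_sub hq.le]
  unfold FF Real.binEntropy
  have e1 : (1 : ℝ) - p / q = (q - p) / q := by
    field_simp
  rw [e1, Real.log_inv, Real.log_inv, Real.log_div hp0.ne' hq0.ne', Real.log_div hqp.ne' hq0.ne']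
  push_cast
  rw [hcast, Real.log_mul (by positivity) (by positivity), Real.log_mul (by positivity) (by positivity),
    Real.log_pow, Real.log_pow, Real.log_pow, Real.log_pow, hcast]
  field_simp
  ring

theorem FF_low : 0 < FF (3692 / 8721) := by
  have h := FF_rational 3692 8721 (by norm_num) (by norm_num)
  have h2 : 3692 ^ 3692 * (8721 - 3692) ^ (8721 - 3692) * 5 ^ 3692 < 8721 ^ 8721 := by
    decide +kernel
  have h3 : (0 : ℝ) < ((3692 ^ 3692 * (8721 - 3692) ^ (8721 - 3692) * 5 ^ 3692 : ℕ) : ℝ) := by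
    exact_mod_cast (by positivity : 0 < 3692 ^ 3692 * (8721 - 3692) ^ (8721 - 3692) * 5 ^ 3692)
  have h4 := Real.log_lt_log h3 (Nat.cast_lt.2 h2)
  have h5 : (0 : ℝ) < (8721 : ℕ) * FF ((3692 : ℕ) / (8721 : ℕ)) := by
    rw [h]
    linarith
  have h6 : (0 : ℝ) < ((8721 : ℕ) : ℝ) := by norm_num
  have h7 := (mul_pos_iff_of_pos_left h6).1 h5
  exact_mod_cast h7

theorem FF_high : FF (2905 / 6862) < 0 := by
  have h := FF_rational 2905 6862 (by norm_num) (by norm_num)
  have h2 : 6862 ^ 6862 < 2905 ^ 2905 * (6862 - 2905) ^ (6862 - 2905) * 5 ^ 2905 := by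
    decide +kernel
  have h3 : (0 : ℝ) < ((6862 ^ 6862 : ℕ) : ℝ) := by
    exact_mod_cast (by positivity : 0 < 6862 ^ 6862)
  have h4 := Real.log_lt_log h3 (Nat.cast_lt.2 h2)
  have h5 : ((6862 : ℕ) : ℝ) * FF ((2905 : ℕ) / (6862 : ℕ)) < 0 := by
    rw [h]
    linarith
  have h6 : (0 : ℝ) < ((6862 : ℕ) : ℝ) := by norm_num
  have h7 : FF ((2905 : ℕ) / (6862 : ℕ)) < 0 := by
    by_contra hc
    have := mul_nonneg h6.le (not_lt.1 hc)
    linarith
  exact_mod_cast h7

/-- a root of `FF` in `(0,1]` is unique -/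
theorem FF_root_unique {r r' : ℝ} (h0 : 0 < r) (h0' : 0 < r') (h1 : r ≤ 1) (h1' : r' ≤ 1)
    (h : FF r = 0) (h' : FF r' = 0) : r = r' := by
  rcases lt_trichotomy r r' with hlt | heq | hgt
  · have := FF_pos_of h0 hlt h1' h'.ge
    linarith
  · exact heq
  · have := FF_pos_of h0' hgt h1 h.ge
    linarith

/-- existence and value of the constant `γ_5` -/
theorem exists_gamma : ∃ r₀ : ℝ, 0 < r₀ ∧ r₀ < 1 ∧ FF r₀ = 0 ∧
    0 < Real.log 2 - r₀ * Real.log 5 ∧
    84.7589 < 1 / (Real.log 2 - r₀ * Real.log 5) ∧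
    1 / (Real.log 2 - r₀ * Real.log 5) < 84.7592 := by
  have hl2 : 0 < Real.log 2 := Real.log_pos (by norm_num)
  have hl5 : 0 < Real.log 5 := Real.log_pos (by norm_num)
  have l2a := Real.log_two_gt_d9
  have l2b := Real.log_two_lt_d9
  have l5a := Real.log_five_gt_d9
  have l5b := Real.log_five_lt_d9
  have hivt := intermediate_value_Icc' (show (3692 / 8721 : ℝ) ≤ 2905 / 6862 by norm_num)
    FF_cont.continuousOn
  obtain ⟨r₀, ⟨hr1, hr2⟩, hr0⟩ := hivt (show (0 : ℝ) ∈ Set.Icc _ _ from ⟨FF_high.le, FF_low.le⟩)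
  have hD : 0 < Real.log 2 - r₀ * Real.log 5 := by
    have h1 : r₀ * Real.log 5 ≤ 2905 / 6862 * Real.log 5 := mul_le_mul_of_nonneg_right hr2 hl5.le
    norm_num at *
    linarith
  refine ⟨r₀, by norm_num at hr1; linarith, by norm_num at hr2; linarith, hr0, hD, ?_, ?_⟩
  · rw [lt_div_iff₀ hD]
    have h1 : 3692 / 8721 * Real.log 5 ≤ r₀ * Real.log 5 := mul_le_mul_of_nonneg_right hr1 hl5.le
    norm_num at *
    linarith
  · rw [div_lt_iff₀ hD]
    have h1 : r₀ * Real.log 5 ≤ 2905 / 6862 * Real.log 5 := mul_le_mul_of_nonneg_right hr2 hl5.le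
    norm_num at *
    linarith

end Pool.Agent.H320R2.L5
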